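import Pool.Agent.H143.QueensSQ

/-!
# Packing centrosymmetric queens patterns: the boards of side 20, 24 and 26, and a general bound
-/

set_option autoImplicit false

namespace Pool.Agent.Results.MP_b34510_co.SmallestCases

open Pool.Agent.H143.QueensSQ

/-- `SQ(20) = 18`, `SQ(24) = 22`, `SQ(26) = 24`; and `SQ(n) ≥ p - 3` whenever the least prime
factor `p` of `n + 1` is at least `5`. -/
theorem result : (SQ 20 = 18 ∧ SQ 24 = 22 ∧ SQ 26 = 24) ∧
    ∀ n : ℕ, 5 ≤ (n + 1).minFac → (n + 1).minFac - 3 ≤ SQ n :=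
  main

end Pool.Agent.Results.MP_b34510_co.SmallestCases
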